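import Pool.Agent.U503.HP.Stm

/-!
# Infinite products of rescaled elements of the commutator subgroup
-/

set_option autoImplicit false

open Set Filter Topology Function
open Pool.Agent.Y453.HB Pool.Agent.R773.HN Pool.Agent.N235.DH
open scoped commutatorElement

namespace Pool.Agent.U503.HP

variable {n : ℕ}

/-- The copies as a homomorphism. -/
theorem dl_hom (hDL : S_DL) (hn : 0 < n) {δ : ℝ} (hδ : 0 < δ) (hδ1 : δ < 1) :
    ∃ d : HamBar n →* (E n ≃ₜ E n), ∀ f : HamBar n, d f ∈ HamBar n ∧ Supp (D 0 δ) (d f) ∧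
      ∀ x, d f (δ • x) = δ • (f : E n ≃ₜ E n) x := by
  have h1 : ∀ f : HamBar n, ∃ g : E n ≃ₜ E n, g ∈ HK n (D 0 δ) ∧ Supp (D 0 δ) g ∧
      ∀ x, g ((0 : E n) + δ • x) = (0 : E n) + δ • (f : E n ≃ₜ E n) x := fun f =>
    hDL n 0 0 δ δ hn (by rw [nm_zero]; linarith) hδ (Subset.refl _) f f.2
  choose d hd1 hd2 hd3 using h1
  have hd3' : ∀ f x, d f (δ • x) = δ • (f : E n ≃ₜ E n) x := by
    intro f x
    have := hd3 f x
    rwa [zero_add, zero_add] at this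
  have hsub : D (0 : E n) δ ⊆ {p : E n | Q p < 1} := by
    intro x hx
    have h2 : nm (x - 0) ≤ δ := hx
    rw [sub_zero] at h2
    have h3 : nm x < 1 := by linarith
    have h4 : Q x < 1 ^ 2 := (Real.sqrt_lt' one_pos).1 h3
    simpa using h4
  refine ⟨MonoidHom.mk' d fun f g => ?_, fun f => ⟨HK_mem (D_compact 0 δ) hsub (hd1 f), hd2 f,
    hd3' f⟩⟩
  refine Homeomorph.ext fun y => ?_
  have hy : y = δ • (δ⁻¹ • y) := by rw [smul_smul, mul_inv_cancel₀ hδ.ne', one_smul]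
  rw [mul_apply, hy, hd3', hd3', hd3']
  rfl

theorem num_L (hn : 0 < n) {ρ R : ℝ} (hρ : 0 < ρ) (hR : 0 < R) {m : ℕ} (hm : 1 ≤ m)
    (h : (m : ℝ) * (24 * n * ρ) ^ (2 * n) ≤ R ^ (2 * n)) :
    ∃ L : ℕ, 1 ≤ L ∧ m ≤ L ^ (2 * n) ∧ 12 * n * L * ρ ≤ R := by
  have hn' : (0 : ℝ) < n := by exact_mod_cast hn
  have h12 : (0 : ℝ) < 12 * n * ρ := by positivity
  have hm' : (1 : ℝ) ≤ m := by exact_mod_cast hm
  have h1 : (24 * n * ρ) ^ (2 * n) ≤ R ^ (2 * n) := by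
    refine le_trans ?_ h
    have h2 : (0 : ℝ) ≤ (24 * n * ρ) ^ (2 * n) := by positivity
    nlinarith
  have h2 : 24 * n * ρ ≤ R := (pow_le_pow_iff_left₀ (by positivity) hR.le (by omega)).1 h1
  refine ⟨⌊R / (12 * n * ρ)⌋₊, ?_, ?_, ?_⟩
  · rw [Nat.one_le_floor_iff, le_div_iff₀ h12]
    nlinarith
  · have h3 : R / (24 * n * ρ) ≤ (⌊R / (12 * n * ρ)⌋₊ : ℝ) := by
      have h4 := Nat.lt_floor_add_one (R / (12 * n * ρ))
      have h5 : R / (12 * n * ρ) = 2 * (R / (24 * n * ρ)) := by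
        field_simp
        norm_num
      have h6 : 1 ≤ R / (24 * n * ρ) := by
        rw [le_div_iff₀ (by positivity)]
        linarith
      linarith
    have h4 : (m : ℝ) ≤ (R / (24 * n * ρ)) ^ (2 * n) := by
      rw [div_pow, le_div_iff₀ (by positivity)]
      exact h
    have h5 : (R / (24 * n * ρ)) ^ (2 * n) ≤ (⌊R / (12 * n * ρ)⌋₊ : ℝ) ^ (2 * n) :=
      pow_le_pow_left₀ (by positivity) h3 _
    exact_mod_cast h4.trans h5
  · have h3 := Nat.floor_le (show 0 ≤ R / (12 * n * ρ) by positivity)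
    rw [le_div_iff₀ h12] at h3
    linarith

theorem main_hp (hALG : S_ALG) (hGEO : S_GEO) (hDL : S_DL) (hINF : S_INF) (hn : 0 < n) (z : E n)
    {r : ℝ} (hr2 : r < 1 / 2) (hz : nm z + r < 1) (q : ℕ → E n) (ρ R : ℕ → ℝ)
    (hρ : ∀ k, 0 < ρ k) (hR : ∀ k, 0 < R k) (hR0 : Tendsto R atTop (𝓝 0))
    (hdis : ∀ j k, j ≠ k → Disjoint (D (q j) (R j)) (D (q k) (R k)))
    (hsub : ∀ k, D (q k) (R k) ⊆ D z r) (φ : ℕ → HamBar n) (m : ℕ → ℕ) (hm : ∀ k, 1 ≤ m k)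
    (hmR : ∀ k, (m k : ℝ) * (24 * n * ρ k) ^ (2 * n) ≤ (R k) ^ (2 * n))
    (hφ : ∀ k, ∃ l : List (HamBar n × HamBar n), l.length ≤ m k ∧
      φ k = (l.map (fun x => ⁅x.1, x.2⁆)).prod) :
    ∃ X ∈ Mono (HamBar n), (∀ k x, nm x ≤ 1 →
      X (q k + ρ k • x) = q k + ρ k • (φ k : E n ≃ₜ E n) x) ∧
      ∀ y, (∀ k, y ∉ D (q k) (ρ k)) → X y = y := by
  have hn' : (0 : ℝ) < n := by exact_mod_cast hn
  -- `r > 0`
  have hr : 0 < r := by
    by_contra hcon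
    push Not at hcon
    obtain ⟨v, hv⟩ := exists_vec hn (hR 0)
    have h1 : nm (q 0 - z) ≤ r := hsub 0 (mem_D_self _ (hR 0).le)
    have h2 : nm (q 0 + v - z) ≤ r := hsub 0 (by
      show nm (q 0 + v - q 0) ≤ R 0
      rw [add_sub_cancel_left, hv])
    have h3 : v = (q 0 + v - z) - (q 0 - z) := by abel
    have h4 : nm v ≤ nm (q 0 + v - z) + nm (q 0 - z) := by
      have h5 := nm_add (q 0 + v - z) (-(q 0 - z))
      rw [nm_neg, ← sub_eq_add_neg, ← h3] at h5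
      exact h5
    have := hR 0
    linarith
  -- the numbers `L k`
  have hL : ∀ k, ∃ L : ℕ, 1 ≤ L ∧ m k ≤ L ^ (2 * n) ∧ 12 * n * L * ρ k ≤ R k := fun k =>
    num_L hn (hρ k) (hR k) (hm k) (hmR k)
  choose L hL1 hL2 hL3 using hL
  have hL1' : ∀ k, (1 : ℝ) ≤ L k := fun k => by exact_mod_cast hL1 k
  have hn1 : (1 : ℝ) ≤ n := by exact_mod_cast hn
  set δ : ℕ → ℝ := fun k => 1 / (12 * n * L k) with hδdef
  have hδ : ∀ k, 0 < δ k := fun k => by
    have := hL1' k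
    simp only [hδdef]
    positivity
  have hδ1 : ∀ k, δ k < 1 := fun k => by
    have := hL1' k
    simp only [hδdef]
    rw [div_lt_one (by positivity)]
    nlinarith
  set R' : ℕ → ℝ := fun k => 12 * n * L k * ρ k with hR'def
  have hR' : ∀ k, 0 < R' k := fun k => by
    have := hL1' k
    have := hρ k
    simp only [hR'def]
    positivity
  have hR'R : ∀ k, R' k ≤ R k := hL3
  have hR'δ : ∀ k, R' k * δ k = ρ k := fun k => by
    have := hL1' k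
    simp only [hR'def, hδdef]
    field_simp
  have hDD : ∀ k, D (q k) (R' k) ⊆ D (q k) (R k) := fun k x hx => le_trans hx (hR'R k)
  -- the copies
  choose d hd using fun k => dl_hom hDL hn (hδ k) (hδ1 k)
  have hF : ∀ k, ∃ A B : Fin (2 * n + 1) → (E n ≃ₜ E n), (∀ t, A t ∈ HamBar n ∧ B t ∈ HamBar n) ∧
      d k (φ k) = (List.ofFn (fun t => ⁅A t, B t⁆)).prod := by
    intro k
    obtain ⟨l, hl1, hl2⟩ := hφ k
    obtain ⟨K, κ, g1, g2, g3, g4, g5⟩ := hGEO n (L k) hn (hL1 k)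
    obtain ⟨A, B, h1, h2⟩ := hALG (E n ≃ₜ E n) (HamBar n) (L k) (2 * n) K κ (hL1 k) g1 g2 g3 g4
      (l.map (fun x => (d k x.1, d k x.2))) (by
        rw [List.length_map]
        exact hl1.trans (hL2 k)) (by
        intro x hx
        obtain ⟨y, -, rfl⟩ := List.mem_map.1 hx
        exact ⟨g5 _ (hd k y.1).1 (hd k y.1).2.1, g5 _ (hd k y.2).1 (hd k y.2).2.1⟩)
    refine ⟨A, B, h1, ?_⟩
    rw [← h2, hl2, map_list_prod, List.map_map, List.map_map]
    congr 1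
    refine List.map_congr_left fun x _ => ?_
    simp only [comp_apply, map_commutatorElement]
  choose A B hAB hFAB using hF
  -- the infinite product
  obtain ⟨P, hP⟩ := hINF n z r q R' hn hz hR' (by
    refine squeeze_zero (fun k => (hR' k).le) hR'R hR0) (fun j k hjk =>
      (hdis j k hjk).mono (hDD j) (hDD k)) (fun k => (hDD k).trans (hsub k))
  have hPs : ∀ F, Supp (D z r) (P F) := fun F y hy => (hP F).2.2 y fun k hk =>
    hy (hsub k (hDD k hk))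
  set F : ℕ → HamBar n := fun k => ⟨d k (φ k), (hd k (φ k)).1⟩ with hFdef
  set A' : Fin (2 * n + 1) → ℕ → HamBar n := fun t k => ⟨A k t, (hAB k t).1⟩ with hA'
  set B' : Fin (2 * n + 1) → ℕ → HamBar n := fun t k => ⟨B k t, (hAB k t).2⟩ with hB'
  have hFe : F = (List.ofFn (fun t => ⁅A' t, B' t⁆)).prod := by
    funext k
    rw [Pi.list_prod_apply, List.map_ofFn]
    apply Subtype.ext
    change d k (φ k) = (HamBar n).subtype _
    rw [map_list_prod, List.map_ofFn, hFAB k]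
    rfl
  have hX : P F ∈ Mono (HamBar n) := by
    rw [hFe, map_list_prod, List.map_ofFn]
    refine Subgroup.list_prod_mem _ fun x hx => ?_
    obtain ⟨t, rfl⟩ := (List.mem_ofFn' _ _).1 hx
    rw [comp_apply, map_commutatorElement]
    exact comm_ball Pool.Agent.R773.HN.hT Pool.Agent.R773.HN.hR hn ⟨fun u hu => isHam_mem hu, le_rfl⟩ hr hr2 hz (hP _).1 (hP _).1
      (hPs _) (hPs _)
  refine ⟨P F, hX, fun k x hx => ?_, fun y hy => ?_⟩
  · have e : ρ k • x = R' k • (δ k • x) := by rw [smul_smul, hR'δ]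
    rw [e, (hP F).2.1 k (δ k • x) (by
      rw [nm_smul, abs_of_pos (hδ k)]
      have := hδ1 k
      have := nm_nonneg x
      have := (hδ k).le
      nlinarith)]
    have e2 : (F k : E n ≃ₜ E n) (δ k • x) = δ k • (φ k : E n ≃ₜ E n) x := (hd k (φ k)).2.2 x
    rw [e2, smul_smul, hR'δ]
  · by_cases h : ∃ k, y ∈ D (q k) (R' k)
    · obtain ⟨k, hk⟩ := h
      have hk' : nm (y - q k) ≤ R' k := hk
      obtain ⟨x, hx⟩ : ∃ x, x = (R' k)⁻¹ • (y - q k) := ⟨_, rfl⟩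
      have e : y = q k + R' k • x := by
        rw [hx, smul_smul, mul_inv_cancel₀ (hR' k).ne', one_smul, add_sub_cancel]
      have hx1 : nm x ≤ 1 := by
        rw [hx, nm_smul, abs_of_pos (inv_pos.2 (hR' k)), inv_mul_le_iff₀ (hR' k), mul_one]
        exact hk'
      have hx2 : x ∉ D (0 : E n) (δ k) := by
        intro h
        apply hy k
        show nm (y - q k) ≤ ρ k
        have h1 : nm (x - 0) ≤ δ k := h
        rw [sub_zero] at h1
        rw [e, add_sub_cancel_left, nm_smul, abs_of_pos (hR' k), ← hR'δ k]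
        exact mul_le_mul_of_nonneg_left h1 (hR' k).le
      have e2 : (F k : E n ≃ₜ E n) x = x := (hd k (φ k)).2.1 x hx2
      rw [e, (hP F).2.1 k x hx1, e2]
    · push Not at h
      exact (hP F).2.2 y h

/-- The same in terms of the normal subgroups of `HamBar n`. -/
theorem main_hp' (hALG : S_ALG) (hGEO : S_GEO) (hDL : S_DL) (hINF : S_INF) (hn : 0 < n) (z : E n)
    {r : ℝ} (hr2 : r < 1 / 2) (hz : nm z + r < 1) (q : ℕ → E n) (ρ R : ℕ → ℝ)
    (hρ : ∀ k, 0 < ρ k) (hR : ∀ k, 0 < R k) (hR0 : Tendsto R atTop (𝓝 0))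
    (hdis : ∀ j k, j ≠ k → Disjoint (D (q j) (R j)) (D (q k) (R k)))
    (hsub : ∀ k, D (q k) (R k) ⊆ D z r) (φ : ℕ → HamBar n) (m : ℕ → ℕ) (hm : ∀ k, 1 ≤ m k)
    (hmR : ∀ k, (m k : ℝ) * (24 * n * ρ k) ^ (2 * n) ≤ (R k) ^ (2 * n))
    (hφ : ∀ k, ∃ l : List (HamBar n × HamBar n), l.length ≤ m k ∧
      φ k = (l.map (fun x => ⁅x.1, x.2⁆)).prod) :
    ∃ X : HamBar n, (∀ k x, nm x ≤ 1 →
      (X : E n ≃ₜ E n) (q k + ρ k • x) = q k + ρ k • (φ k : E n ≃ₜ E n) x) ∧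
      (∀ y, (∀ k, y ∉ D (q k) (ρ k)) → (X : E n ≃ₜ E n) y = y) ∧
      ∀ N : Subgroup (HamBar n), N.Normal → N ≠ ⊥ → X ∈ N := by
  obtain ⟨X, hX, h1, h2⟩ := main_hp hALG hGEO hDL hINF hn z hr2 hz q ρ R hρ hR hR0 hdis hsub φ m
    hm hmR hφ
  refine ⟨⟨X, (Mono_norm (HamBar n)).1 hX⟩, h1, h2, fun N hN hne => ?_⟩
  have h3 : NormIn (HamBar n) (N.map (HamBar n).subtype) := by
    refine ⟨?_, ?_⟩
    · rintro _ ⟨x, -, rfl⟩
      exact x.2
    · rintro g hg _ ⟨x, hx, rfl⟩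
      exact ⟨⟨g, hg⟩ * x * ⟨g, hg⟩⁻¹, hN.conj_mem x hx ⟨g, hg⟩, rfl⟩
  have h4 : N.map (HamBar n).subtype ≠ ⊥ := by
    intro h
    apply hne
    rw [eq_bot_iff]
    intro x hx
    have h5 : (x : E n ≃ₜ E n) ∈ N.map (HamBar n).subtype := ⟨x, hx, rfl⟩
    rw [h, Subgroup.mem_bot] at h5
    rw [Subgroup.mem_bot]
    exact Subtype.ext h5
  obtain ⟨y, hy, hyx⟩ := Mono_le h3 h4 hX
  have h5 : y = ⟨X, (Mono_norm (HamBar n)).1 hX⟩ := Subtype.ext hyx
  rwa [← h5]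

end Pool.Agent.U503.HP
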