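import Pool.Agent.R773.HN.Fin
import Pool.Agent.N235.DH.Fin

/-!
# Project HP: infinite products of rescaled Hamiltonian homeomorphisms of the ball
-/

set_option autoImplicit false

open Set Filter Topology Function
open Pool.Agent.Y453.HB Pool.Agent.R773.HN Pool.Agent.N235.DH
open scoped commutatorElement

namespace Pool.Agent.U503.HP

/-- A product of at most `L ^ M` commutators of elements of `K 0` is a product of `M + 1`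
commutators of elements of `Γ`. -/
def S_ALG : Prop := ∀ (G : Type) [Group G] (Γ : Subgroup G) (L M : ℕ) (K : ℕ → Subgroup G)
  (κ : ℕ → G), 1 ≤ L → (∀ s ≤ M, K s ≤ Γ) → (∀ s < M, κ s ∈ Γ) →
  (∀ s < M, ∀ i < L, ∀ a ∈ K s, κ s ^ i * a * (κ s ^ i)⁻¹ ∈ K (s + 1)) →
  (∀ s < M, ∀ i < L, ∀ j < L, i ≠ j → ∀ a ∈ K s, ∀ b ∈ K s,
    Commute (κ s ^ i * a * (κ s ^ i)⁻¹) (κ s ^ j * b * (κ s ^ j)⁻¹)) →
  ∀ l : List (G × G), l.length ≤ L ^ M → (∀ x ∈ l, x.1 ∈ K 0 ∧ x.2 ∈ K 0) →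
  ∃ A B : Fin (M + 1) → G, (∀ t, A t ∈ Γ ∧ B t ∈ Γ) ∧
    (l.map (fun x => ⁅x.1, x.2⁆)).prod = (List.ofFn (fun t => ⁅A t, B t⁆)).prod

/-- Boxes and translations in the unit ball. -/
def S_GEO : Prop := ∀ (n L : ℕ), 0 < n → 1 ≤ L →
  ∃ (K : ℕ → Subgroup (E n ≃ₜ E n)) (κ : ℕ → (E n ≃ₜ E n)),
    (∀ s ≤ 2 * n, K s ≤ HamBar n) ∧ (∀ s < 2 * n, κ s ∈ HamBar n) ∧
    (∀ s < 2 * n, ∀ i < L, ∀ a ∈ K s, κ s ^ i * a * (κ s ^ i)⁻¹ ∈ K (s + 1)) ∧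
    (∀ s < 2 * n, ∀ i < L, ∀ j < L, i ≠ j → ∀ a ∈ K s, ∀ b ∈ K s,
      Commute (κ s ^ i * a * (κ s ^ i)⁻¹) (κ s ^ j * b * (κ s ^ j)⁻¹)) ∧
    ∀ f ∈ HamBar n, Supp (D 0 (1 / (12 * n * L))) f → f ∈ K 0

/-- Copies in small balls. -/
def S_DL : Prop := ∀ (n : ℕ) (z q : E n) (r R : ℝ), 0 < n → nm z + r < 1 → 0 < R →
  D q R ⊆ D z r → ∀ f ∈ HamBar n, ∃ g : E n ≃ₜ E n, g ∈ HK n (D z r) ∧ Supp (D q R) g ∧
    ∀ x, g (q + R • x) = q + R • f x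

/-- Infinite products of copies in disjoint balls. -/
def S_INF : Prop := ∀ (n : ℕ) (z : E n) (r : ℝ) (q : ℕ → E n) (R : ℕ → ℝ), 0 < n →
  nm z + r < 1 → (∀ k, 0 < R k) → Tendsto R atTop (𝓝 0) →
  (∀ j k, j ≠ k → Disjoint (D (q j) (R j)) (D (q k) (R k))) → (∀ k, D (q k) (R k) ⊆ D z r) →
  ∃ P : (ℕ → HamBar n) →* (E n ≃ₜ E n), ∀ F : ℕ → HamBar n, P F ∈ HamBar n ∧
    (∀ k x, nm x ≤ 1 → P F (q k + R k • x) = q k + R k • (F k : E n ≃ₜ E n) x) ∧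
    ∀ y, (∀ k, y ∉ D (q k) (R k)) → P F y = y

end Pool.Agent.U503.HP
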